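import Pool.Agent.R656.ToepFin
import Pool.Agent.R656.ErgExist

set_option autoImplicit false

namespace Pool.Agent.Results.MP_6420b1_an.ToeplitzPartial

open MeasureTheory Filter Topology

/-- The left shift on two-sided binary sequences. -/
def leftShift (y : ℤ → Bool) : ℤ → Bool := fun n => y (n + 1)

/-- Toeplitz sequences: not periodic, and every position `n` has a period `p ≥ 1`. -/
def IsToeplitz (x : ℤ → Bool) : Prop :=
  (¬ ∃ p : ℤ, 1 ≤ p ∧ ∀ n : ℤ, x (n + p) = x n) ∧
    ∀ n : ℤ, ∃ p : ℤ, 1 ≤ p ∧ ∀ k : ℤ, x (n + k * p) = x n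

/-- The Toeplitz system: the orbit closure of `x` (product topology). -/
def toeplitzSystem (x : ℤ → Bool) : Set (ℤ → Bool) :=
  closure {y | ∃ k : ℤ, ∀ n : ℤ, y n = x (n + k)}

/-- `μ` is a shift invariant Borel probability measure on `X`. -/
def IsInvariantOn (X : Set (ℤ → Bool)) (μ : Measure (ℤ → Bool)) : Prop :=
  IsProbabilityMeasure μ ∧ μ Xᶜ = 0 ∧ MeasurePreserving leftShift μ μ

/-- Rigidity: for some `n_k → ∞`, `μ(σ^{n_k} B ∩ B) → μ(B)` for every Borel `B ⊆ X`. -/
def IsRigid (X : Set (ℤ → Bool)) (μ : Measure (ℤ → Bool)) : Prop :=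
  ∃ n : ℕ → ℕ, Tendsto n atTop atTop ∧ ∀ B ⊆ X, MeasurableSet B →
    Tendsto (fun k => μ ((leftShift^[n k] '' B) ∩ B)) atTop (𝓝 (μ B))

/-- Partial rigidity: for some `δ > 0` and some `n_k → ∞`,
`liminf μ(σ^{n_k} B ∩ B) ≥ δ μ(B)` for every Borel `B ⊆ X`. -/
def IsPartiallyRigid (X : Set (ℤ → Bool)) (μ : Measure (ℤ → Bool)) : Prop :=
  ∃ δ : ℝ, 0 < δ ∧ ∃ n : ℕ → ℕ, Tendsto n atTop atTop ∧ ∀ B ⊆ X, MeasurableSet B →
    ENNReal.ofReal δ * μ B ≤ liminf (fun k => μ ((leftShift^[n k] '' B) ∩ B)) atTop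

open Pool.Agent.R656.Toep in
theorem ls_eq : leftShift = shift := rfl

open Pool.Agent.R656.Toep in
theorem meas_image {μ : Measure (ℤ → Bool)} (hμ : MeasurePreserving shift μ μ)
    {B : Set (ℤ → Bool)} (hB : MeasurableSet B) (m : ℕ) :
    μ ((shift^[m] '' B) ∩ B) = μ (B ∩ shift^[m] ⁻¹' B) := by
  have hinj : Function.Injective (shift^[m]) := by
    intro y y' h
    rw [shift_iter, shift_iter] at h
    funext n
    have := congrFun h (n - m)
    simpa using this
  have hmeas : MeasurableSet (shift^[m] '' B) := by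
    have hc : Continuous fun y : ℤ → Bool => (fun n : ℤ => y (n - m)) :=
      continuous_pi fun n => continuous_apply (n - (m : ℤ))
    have : shift^[m] '' B = (fun y : ℤ → Bool => (fun n : ℤ => y (n - m))) ⁻¹' B := by
      ext y
      constructor
      · rintro ⟨z, hz, rfl⟩
        rw [shift_iter]
        simpa using hz
      · intro hy
        refine ⟨_, hy, ?_⟩
        rw [shift_iter]
        funext n
        simp
    rw [this]
    exact hc.measurable hB
  have h1 := (hμ.iterate m).measure_preimage (hmeas.inter hB).nullMeasurableSet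
  rw [← h1, Set.preimage_inter, Set.preimage_image_eq _ hinj]

open Pool.Agent.R656.Toep in
theorem partially_rigid {μ : Measure (ℤ → Bool)} (h : IsInvariantOn (toeplitzSystem x) μ) :
    IsPartiallyRigid (toeplitzSystem x) μ := by
  obtain ⟨hp, hX, hμ⟩ := h
  refine ⟨1 / 9, by norm_num, q, tendsto_atTop_mono (fun K => (q_ge K).le) tendsto_id,
    fun B _ hB => ?_⟩
  apply le_of_forall_lt
  intro a ha
  have hB9 : ENNReal.ofReal (1 / 9) * μ B = ENNReal.ofReal (μ.real B / 9) := by
    have : μ B = ENNReal.ofReal (μ.real B) := by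
      unfold Measure.real
      rw [ENNReal.ofReal_toReal (measure_ne_top _ _)]
    rw [this, ← ENNReal.ofReal_mul (by norm_num)]
    congr 1
    ring
  rw [hB9] at ha
  have ha' : a ≠ ⊤ := ne_top_of_lt ha
  have hreal : a.toReal < μ.real B / 9 := by
    rw [ENNReal.lt_ofReal_iff_toReal_lt ha'] at ha
    exact ha
  set ε : ℝ := (μ.real B / 9 - a.toReal) / 2 with hε
  have hε0 : 0 < ε := by rw [hε]; linarith
  have hev := set_ret (μ := μ) hμ.map_eq hX hB hε0
  have hlt : a < ENNReal.ofReal (μ.real B / 9 - ε) := by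
    rw [ENNReal.lt_ofReal_iff_toReal_lt ha']
    linarith
  refine lt_of_lt_of_le hlt ?_
  apply le_liminf_of_le (by isBoundedDefault)
  filter_upwards [hev] with K hK
  change _ ≤ μ ((shift^[q K] '' B) ∩ B)
  rw [meas_image hμ hB]
  apply ENNReal.ofReal_le_of_le_toReal
  exact hK

open Pool.Agent.R656.Toep in
theorem not_rigid {μ : Measure (ℤ → Bool)} (h : IsInvariantOn (toeplitzSystem x) μ) :
    ¬ IsRigid (toeplitzSystem x) μ := by
  obtain ⟨hp, hX, hμ⟩ := h
  rintro ⟨n, hn, hr⟩
  have hXm : MeasurableSet (toeplitzSystem x) := isClosed_closure.measurableSet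
  have hc0 : Continuous fun y : ℤ → Bool => y 0 := continuous_apply (0 : ℤ)
  have hm : ∀ b : Bool, MeasurableSet (toeplitzSystem x ∩ {y : ℤ → Bool | y 0 = b}) := by
    intro b
    apply hXm.inter
    exact (measurableSet_singleton b).preimage hc0.measurable
  have h1 := (hr _ Set.inter_subset_left (hm true)).add (hr _ Set.inter_subset_left (hm false))
  have htot : μ (toeplitzSystem x ∩ {y : ℤ → Bool | y 0 = true}) +
      μ (toeplitzSystem x ∩ {y : ℤ → Bool | y 0 = false}) = 1 := by
    rw [← measure_union _ (hm false)]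
    · have e : toeplitzSystem x ∩ {y : ℤ → Bool | y 0 = true} ∪
          toeplitzSystem x ∩ {y : ℤ → Bool | y 0 = false} = toeplitzSystem x := by
        rw [← Set.inter_union_distrib_left]
        apply Set.inter_eq_left.2
        intro y _
        rcases Bool.eq_false_or_eq_true (y 0) with h | h
        · exact Or.inl h
        · exact Or.inr h
      rw [e]
      exact (prob_compl_eq_zero_iff hXm).1 hX
    · rw [Set.disjoint_left]
      rintro y ⟨_, h1⟩ ⟨_, h2⟩
      rw [Set.mem_ofPred_eq] at h1 h2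
      rw [h1] at h2
      exact Bool.noConfusion h2
  rw [htot] at h1
  have hle : ∀ᶠ k in atTop, μ ((leftShift^[n k] '' (toeplitzSystem x ∩ {y : ℤ → Bool | y 0 = true})) ∩
      (toeplitzSystem x ∩ {y : ℤ → Bool | y 0 = true})) +
      μ ((leftShift^[n k] '' (toeplitzSystem x ∩ {y : ℤ → Bool | y 0 = false})) ∩
      (toeplitzSystem x ∩ {y : ℤ → Bool | y 0 = false})) ≤ ENNReal.ofReal (8 / 9) := by
    filter_upwards [hn.eventually_ge_atTop 1] with k hk
    rw [ls_eq, meas_image hμ (hm true), meas_image hμ (hm false)]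
    rw [← measure_union _ ((hm false).inter
      ((continuous_shift_iter _).measurable (hm false)))]
    · have hsub : (toeplitzSystem x ∩ {y : ℤ → Bool | y 0 = true}) ∩
          shift^[n k] ⁻¹' (toeplitzSystem x ∩ {y : ℤ → Bool | y 0 = true}) ∪
          (toeplitzSystem x ∩ {y : ℤ → Bool | y 0 = false}) ∩
          shift^[n k] ⁻¹' (toeplitzSystem x ∩ {y : ℤ → Bool | y 0 = false}) ⊆
          {y : ℤ → Bool | y 0 = y (n k : ℕ)} := by
        rintro y (⟨⟨_, h2⟩, ⟨_, h3⟩⟩ | ⟨⟨_, h2⟩, ⟨_, h3⟩⟩)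
        · rw [Set.mem_ofPred_eq] at h2 h3 ⊢
          rw [shift_iter] at h3
          simp only [zero_add] at h3
          rw [h2, h3]
        · rw [Set.mem_ofPred_eq] at h2 h3 ⊢
          rw [shift_iter] at h3
          simp only [zero_add] at h3
          rw [h2, h3]
      refine (measure_mono hsub).trans ?_
      have := diag_le (μ := μ) hμ.map_eq hX (n := n k) hk
      unfold Measure.real at this
      exact (ENNReal.le_ofReal_iff_toReal_le (measure_ne_top _ _) (by norm_num)).2 this
    · rw [Set.disjoint_left]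
      rintro y ⟨⟨_, h1⟩, _⟩ ⟨⟨_, h2⟩, _⟩
      rw [Set.mem_ofPred_eq] at h1 h2
      rw [h1] at h2
      exact Bool.noConfusion h2
  have h2 := le_of_tendsto h1 hle
  have h3 : ENNReal.ofReal (8 / 9) < 1 := by
    rw [ENNReal.ofReal_lt_one]
    norm_num
  exact absurd h2 (not_le.2 h3)

open Pool.Agent.R656.Toep in
theorem exists_erg (x : ℤ → Bool) :
    ∃ μ : Measure (ℤ → Bool), IsInvariantOn (toeplitzSystem x) μ ∧ Ergodic leftShift μ := by
  have hcl : IsClosed (toeplitzSystem x) := isClosed_closure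
  haveI : CompactSpace (toeplitzSystem x) := isCompact_iff_compactSpace.1 hcl.isCompact
  haveI : Nonempty (toeplitzSystem x) := ⟨⟨x, subset_closure ⟨0, fun n => by simp⟩⟩⟩
  have hmaps : ∀ y ∈ toeplitzSystem x, leftShift y ∈ toeplitzSystem x := by
    intro y hy
    refine map_mem_closure continuous_shift hy ?_
    rintro z ⟨k, hk⟩
    refine ⟨k + 1, fun n => ?_⟩
    change z (n + 1) = _
    rw [hk]
    congr 1
    ring
  set T : toeplitzSystem x → toeplitzSystem x := fun y => ⟨leftShift y.1, hmaps _ y.2⟩ with hT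
  have hTc : Continuous T := (continuous_shift.comp continuous_subtype_val).subtype_mk _
  obtain ⟨μ, hp, hinv, herg⟩ := Pool.Agent.R656.Erg.exists_ergodic hTc
  have hv : Measurable (Subtype.val : toeplitzSystem x → (ℤ → Bool)) := measurable_subtype_coe
  haveI := Measure.isProbabilityMeasure_map (μ := μ) hv.aemeasurable
  have hmp : MeasurePreserving leftShift (μ.map Subtype.val) (μ.map Subtype.val) := by
    refine ⟨continuous_shift.measurable, ?_⟩
    rw [ls_eq, Measure.map_map continuous_shift.measurable hv]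
    have : shift ∘ (Subtype.val : toeplitzSystem x → (ℤ → Bool)) = Subtype.val ∘ T := rfl
    rw [this, ← Measure.map_map hv hTc.measurable, hinv]
  refine ⟨μ.map Subtype.val, ⟨inferInstance, ?_, hmp⟩, ⟨hmp, ⟨?_⟩⟩⟩
  · rw [Measure.map_apply hv hcl.measurableSet.compl]
    have : (Subtype.val : toeplitzSystem x → (ℤ → Bool)) ⁻¹' (toeplitzSystem x)ᶜ = ∅ := by
      ext y
      simp
    rw [this, measure_empty]
  · intro s hs hinvs
    rw [eventuallyConst_set']
    have h1 := herg (Subtype.val ⁻¹' s) (hv hs) (by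
      ext y
      change leftShift y.1 ∈ s ↔ y.1 ∈ s
      conv_rhs => rw [← hinvs]
      rfl)
    rcases h1 with h1 | h1
    · left
      rw [ae_eq_empty, Measure.map_apply hv hs, h1]
    · right
      rw [ae_eq_univ, prob_compl_eq_zero_iff hs, Measure.map_apply hv hs, h1]

/-- There is a Toeplitz sequence whose system carries an ergodic invariant measure, and all of
whose invariant probability measures are partially rigid and not rigid. -/
theorem result : ∃ x : ℤ → Bool, IsToeplitz x ∧
    (∃ μ : Measure (ℤ → Bool), IsInvariantOn (toeplitzSystem x) μ ∧ Ergodic leftShift μ ∧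
      IsPartiallyRigid (toeplitzSystem x) μ ∧ ¬ IsRigid (toeplitzSystem x) μ) ∧
    ∀ μ : Measure (ℤ → Bool), IsInvariantOn (toeplitzSystem x) μ →
      IsPartiallyRigid (toeplitzSystem x) μ ∧ ¬ IsRigid (toeplitzSystem x) μ := by
  refine ⟨Pool.Agent.R656.Toep.x, ⟨Pool.Agent.R656.Toep.x_aperiodic,
    Pool.Agent.R656.Toep.x_toeplitz⟩, ?_, fun μ hμ => ⟨partially_rigid hμ, not_rigid hμ⟩⟩
  obtain ⟨μ, h1, h2⟩ := exists_erg Pool.Agent.R656.Toep.x
  exact ⟨μ, h1, h2, partially_rigid h1, not_rigid h1⟩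

end Pool.Agent.Results.MP_6420b1_an.ToeplitzPartial
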